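import Pool.Agent.W960.HC.Defs

/-!
# Project HC, part B: the quarter turn of the unperturbed system
-/

set_option autoImplicit false

open Set Topology Filter MeasureTheory

namespace Pool.Agent.W530.HC

open Pool.Agent.W960.HC

lemma exp_gt {u : ℝ} (hu : u ≠ 0) : 1 + u < Real.exp u := by
  have := Real.add_one_lt_exp hu
  linarith

lemma kp_pos (X : ℝ) : 0 < kp X := by
  unfold kp
  positivity

lemma kp_lt_one {X : ℝ} (hX : 0 < X) : kp X < 1 := by
  unfold kp
  have h1 : 1 + X ^ 2 < Real.exp (X ^ 2) := exp_gt (by positivity)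
  have h2 : 0 < Real.exp (-X ^ 2) := Real.exp_pos _
  calc Real.exp (-X ^ 2) * (1 + X ^ 2) < Real.exp (-X ^ 2) * Real.exp (X ^ 2) :=
        mul_lt_mul_of_pos_left h1 h2
    _ = 1 := by rw [← Real.exp_add]; simp

lemma et_pos {X : ℝ} (hX : 0 < X) : 0 < et X := by
  unfold et
  exact Real.sqrt_pos.2 (by linarith [kp_lt_one hX])

lemma et_sq {X : ℝ} (hX : 0 < X) : et X ^ 2 = 1 - kp X := by
  unfold et
  exact Real.sq_sqrt (by linarith [kp_lt_one hX])

lemma kap_et {X : ℝ} (hX : 0 < X) : kap (0, et X) = kp X := by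
  unfold kap
  have h := et_sq hX
  simp only [h]
  norm_num

/-- on the level set -/
lemma lev {X : ℝ} {p : ℝ × ℝ} (h : kap p = kp X) :
    p.2 ^ 2 = 1 + p.1 ^ 2 - kp X * Real.exp (p.1 ^ 2) := by
  rw [← h]
  unfold kap
  have h1 : Real.exp (-p.1 ^ 2) * Real.exp (p.1 ^ 2) = 1 := by
    rw [← Real.exp_add]; simp
  linear_combination (1 + p.1 ^ 2 - p.2 ^ 2) * h1

lemma kp_exp (X s : ℝ) : kp X * Real.exp s = (1 + X ^ 2) * Real.exp (s - X ^ 2) := by
  unfold kp
  rw [sub_eq_neg_add, Real.exp_add]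
  ring

lemma lev_le {X : ℝ} {p : ℝ × ℝ} (h : kap p = kp X) : p.1 ^ 2 ≤ X ^ 2 := by
  by_contra hlt
  push Not at hlt
  have h1 := lev h
  rw [kp_exp] at h1
  have h2 : 1 + (p.1 ^ 2 - X ^ 2) < Real.exp (p.1 ^ 2 - X ^ 2) := exp_gt (by linarith)
  have h3 : (1 + X ^ 2) * (1 + (p.1 ^ 2 - X ^ 2)) < (1 + X ^ 2) * Real.exp (p.1 ^ 2 - X ^ 2) :=
    mul_lt_mul_of_pos_left h2 (by positivity)
  have h4 : 0 ≤ X ^ 2 * (p.1 ^ 2 - X ^ 2) := mul_nonneg (by positivity) (by linarith)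
  nlinarith [sq_nonneg p.2]

lemma lev_zero {X : ℝ} {p : ℝ × ℝ} (h : kap p = kp X) (hy : p.2 = 0) : p.1 ^ 2 = X ^ 2 := by
  refine le_antisymm (lev_le h) ?_
  by_contra hlt
  push Not at hlt
  have h1 := lev h
  rw [kp_exp, hy] at h1
  have h2 : 1 + (X ^ 2 - p.1 ^ 2) < Real.exp (X ^ 2 - p.1 ^ 2) := exp_gt (by linarith)
  have h3 : (1 + p.1 ^ 2) * (1 + (X ^ 2 - p.1 ^ 2)) < (1 + p.1 ^ 2) * Real.exp (X ^ 2 - p.1 ^ 2) :=
    mul_lt_mul_of_pos_left h2 (by positivity)
  have h4 : Real.exp (p.1 ^ 2 - X ^ 2) * Real.exp (X ^ 2 - p.1 ^ 2) = 1 := by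
    rw [← Real.exp_add]; simp
  have h5 : (1 + p.1 ^ 2) * Real.exp (X ^ 2 - p.1 ^ 2) = 1 + X ^ 2 := by
    linear_combination (1 + X ^ 2) * h4 - Real.exp (X ^ 2 - p.1 ^ 2) * h1
  have h6 : 0 ≤ p.1 ^ 2 * (X ^ 2 - p.1 ^ 2) := mul_nonneg (by positivity) (by linarith)
  nlinarith

lemma lev_norm {X : ℝ} (hX : 0 < X) {p : ℝ × ℝ} (h : kap p = kp X) : ‖p‖ ≤ 1 + X := by
  have h1 := lev_le h
  have h2 := lev h
  have h3 : 0 < kp X * Real.exp (p.1 ^ 2) := mul_pos (kp_pos X) (Real.exp_pos _)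
  rw [Prod.norm_def, max_le_iff]
  constructor
  · rw [Real.norm_eq_abs]
    have := abs_le_of_sq_le_sq h1 hX.le
    linarith
  · rw [Real.norm_eq_abs]
    refine abs_le.2 (abs_le_of_sq_le_sq' ?_ (by linarith))
    nlinarith

lemma Ppos {X : ℝ} (hX : 0 < X) {p : ℝ × ℝ} (h : kap p = kp X) :
    0 < p.2 ^ 2 + p.1 ^ 4 - p.1 ^ 2 * p.2 ^ 2 := by
  have h2 := lev h
  have h3 : 0 < kp X * Real.exp (p.1 ^ 2) := mul_pos (kp_pos X) (Real.exp_pos _)
  rcases le_or_gt (p.1 ^ 2) 1 with h1 | h1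
  · rcases eq_or_ne p.1 0 with h0 | h0
    · rw [h0] at h2 ⊢
      have h4 := kp_lt_one hX
      have h5 : p.2 ^ 2 = 1 - kp X := by
        rw [h2]; norm_num
      rw [h5]
      norm_num
      exact h4
    · have h4 : 0 < p.1 ^ 4 := by positivity
      have h5 : 0 ≤ p.2 ^ 2 * (1 - p.1 ^ 2) := mul_nonneg (by positivity) (by linarith)
      nlinarith
  · have h4 : p.2 ^ 2 < 1 + p.1 ^ 2 := by linarith
    have h5 : p.2 ^ 2 * (p.1 ^ 2 - 1) < (1 + p.1 ^ 2) * (p.1 ^ 2 - 1) :=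
      mul_lt_mul_of_pos_right h4 (by linarith)
    nlinarith

lemma kap_cont : Continuous kap := by
  unfold kap
  fun_prop

/-- the vector field points around the origin, uniformly -/
lemma Pmin {X : ℝ} (hX : 0 < X) :
    ∃ m : ℝ, 0 < m ∧ ∀ p : ℝ × ℝ, kap p = kp X → m ≤ p.2 ^ 2 + p.1 ^ 4 - p.1 ^ 2 * p.2 ^ 2 := by
  have hK : IsCompact {p : ℝ × ℝ | kap p = kp X} := by
    apply Metric.isCompact_of_isClosed_isBounded
    · exact isClosed_eq kap_cont continuous_const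
    · refine (Metric.isBounded_closedBall (x := (0 : ℝ × ℝ)) (r := 1 + X)).subset ?_
      intro p hp
      rw [mem_closedBall_zero_iff]
      exact lev_norm hX hp
  have hne : {p : ℝ × ℝ | kap p = kp X}.Nonempty := ⟨(0, et X), kap_et hX⟩
  have hc : ContinuousOn (fun p : ℝ × ℝ => p.2 ^ 2 + p.1 ^ 4 - p.1 ^ 2 * p.2 ^ 2)
      {p : ℝ × ℝ | kap p = kp X} := by fun_prop
  obtain ⟨q, hq, hmin⟩ := hK.exists_isMinOn hne hc
  exact ⟨_, Ppos hX hq, fun p hp => hmin hp⟩

lemma fst_der {γ : ℝ → ℝ × ℝ} {v : ℝ × ℝ} {t : ℝ} (h : HasDerivAt γ v t) :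
    HasDerivAt (fun t => (γ t).1) v.1 t :=
  (ContinuousLinearMap.fst ℝ ℝ ℝ).hasFDerivAt.comp_hasDerivAt t h

lemma snd_der {γ : ℝ → ℝ × ℝ} {v : ℝ × ℝ} {t : ℝ} (h : HasDerivAt γ v t) :
    HasDerivAt (fun t => (γ t).2) v.2 t :=
  (ContinuousLinearMap.snd ℝ ℝ ℝ).hasFDerivAt.comp_hasDerivAt t h

/-- `kap` is conserved -/
lemma kap_der (a c : ℝ) {γ : ℝ → ℝ × ℝ} {t : ℝ} (h : HasDerivAt γ (fld a c 0 (γ t)) t) :
    HasDerivAt (fun t => kap (γ t)) 0 t := by
  have hx := fst_der h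
  have hy := snd_der h
  unfold kap
  have h1 := ((hx.pow 2).neg.exp).mul (((hx.pow 2).const_add 1).sub (hy.pow 2))
  refine h1.congr_deriv ?_
  simp only [fld]
  push_cast
  simp
  ring

/-- the global solution -/
lemma glob (hF : ∀ a c R : ℝ, ∃ Z W, Flw a c R Z W) (a c : ℝ) {X : ℝ} (hX : 0 < X) :
    ∃ γ : ℝ → ℝ × ℝ, γ 0 = (0, et X) ∧ (∀ t, HasDerivAt γ (fld a c 0 (γ t)) t) ∧
      ∀ t, kap (γ t) = kp X := by
  obtain ⟨Z, W, hZ⟩ := hF a c (2 + X)
  set γ : ℝ → ℝ × ℝ := fun t => Z t (0, et X) 0 with hγ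
  have h0 : γ 0 = (0, et X) := hZ.zero _ _
  have hder : ∀ t, ‖γ t‖ < 2 + X → HasDerivAt γ (fld a c 0 (γ t)) t := by
    intro t ht
    exact hZ.der (0, et X) 0 t ht (by norm_num)
  have hc : Continuous γ := by
    have h1 := hZ.smZ.continuous
    exact h1.comp (by fun_prop : Continuous fun t : ℝ => ((t, ((0 : ℝ), et X), (0 : ℝ)) :
      ℝ × (ℝ × ℝ) × ℝ))
  have hclopen : IsClopen {t : ℝ | kap (γ t) = kp X} := by
    refine ⟨isClosed_eq (kap_cont.comp hc) continuous_const, ?_⟩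
    rw [Metric.isOpen_iff]
    intro t₀ ht₀
    have h1 : ‖γ t₀‖ < 2 + X := by
      have := lev_norm hX ht₀
      linarith
    have h2 : {t : ℝ | ‖γ t‖ < 2 + X} ∈ 𝓝 t₀ :=
      (isOpen_lt hc.norm continuous_const).mem_nhds h1
    obtain ⟨r, hr, hball⟩ := Metric.mem_nhds_iff.1 h2
    refine ⟨r, hr, fun t ht => ?_⟩
    have h3 : kap (γ t) = kap (γ t₀) := by
      refine Metric.isOpen_ball.is_const_of_deriv_eq_zero (f := fun t => kap (γ t))
        (convex_ball t₀ r).isPreconnected ?_ ?_ ht (Metric.mem_ball_self hr)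
      · intro s hs
        exact (kap_der a c (hder s (hball hs))).differentiableAt.differentiableWithinAt
      · intro s hs
        exact (kap_der a c (hder s (hball hs))).deriv
    exact h3.trans ht₀
  have huniv := hclopen.eq_univ ⟨0, by
    change kap (γ 0) = kp X
    rw [h0]; exact kap_et hX⟩
  have hall : ∀ t, kap (γ t) = kp X := fun t => by
    have : t ∈ {t : ℝ | kap (γ t) = kp X} := by rw [huniv]; trivial
    exact this
  refine ⟨γ, h0, fun t => hder t ?_, hall⟩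
  have := lev_norm hX (hall t)
  linarith

/-- the solution hits the `x`-axis -/
lemma hit {X : ℝ} (hX : 0 < X) (a c : ℝ) {γ : ℝ → ℝ × ℝ} (h0 : γ 0 = (0, et X))
    (hd : ∀ t, HasDerivAt γ (fld a c 0 (γ t)) t) (hk : ∀ t, kap (γ t) = kp X) :
    ∃ t, 0 ≤ t ∧ (γ t).2 = 0 := by
  by_contra hcon
  push Not at hcon
  have hc : Continuous γ := continuous_iff_continuousAt.2 fun t => (hd t).continuousAt
  have hyc : Continuous fun t => (γ t).2 := continuous_snd.comp hc
  have hpos : ∀ t, 0 ≤ t → 0 < (γ t).2 := by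
    intro t ht
    by_contra hneg
    push Not at hneg
    have h1 : (0 : ℝ) ∈ Icc ((γ t).2) ((γ 0).2) := ⟨hneg, by rw [h0]; exact (et_pos hX).le⟩
    obtain ⟨s, hs, hs'⟩ := intermediate_value_Icc' ht hyc.continuousOn h1
    exact hcon s hs.1 hs'
  obtain ⟨m, hm, hmin⟩ := Pmin hX
  set δ : ℝ := m / (2 * (1 + X) ^ 2) with hδ
  have hδpos : 0 < δ := by positivity
  -- the angle
  have hang : ∀ t, 0 ≤ t → HasDerivAt (fun t => Real.arctan ((γ t).1 / (γ t).2))
      (((γ t).2 ^ 2 + (γ t).1 ^ 4 - (γ t).1 ^ 2 * (γ t).2 ^ 2) / ((γ t).1 ^ 2 + (γ t).2 ^ 2)) t := by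
    intro t ht
    have hy := hpos t ht
    have h1 := ((fst_der (hd t)).div (snd_der (hd t)) hy.ne').arctan
    refine h1.congr_deriv ?_
    simp only [fld, Pi.div_apply]
    have h3 : 0 < (γ t).1 ^ 2 + (γ t).2 ^ 2 := by positivity
    field_simp
    ring
  have hge : ∀ t, 0 ≤ t → δ ≤ ((γ t).2 ^ 2 + (γ t).1 ^ 4 - (γ t).1 ^ 2 * (γ t).2 ^ 2) /
      ((γ t).1 ^ 2 + (γ t).2 ^ 2) := by
    intro t ht
    have hy := hpos t ht
    have h3 : 0 < (γ t).1 ^ 2 + (γ t).2 ^ 2 := by positivity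
    have h4 := lev_norm hX (hk t)
    rw [Prod.norm_def, max_le_iff, Real.norm_eq_abs, Real.norm_eq_abs] at h4
    have h5 : (γ t).1 ^ 2 ≤ (1 + X) ^ 2 := sq_le_sq' (by linarith [abs_le.1 h4.1]) (abs_le.1 h4.1).2
    have h6 : (γ t).2 ^ 2 ≤ (1 + X) ^ 2 := sq_le_sq' (by linarith [abs_le.1 h4.2]) (abs_le.1 h4.2).2
    rw [hδ]
    apply div_le_div₀ (hm.le.trans (hmin _ (hk t))) (hmin _ (hk t)) h3
    linarith
  -- growth of the angle
  have hgrow : ∀ t, 0 ≤ t → δ * t ≤ Real.arctan ((γ t).1 / (γ t).2) := by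
    intro t ht
    have h1 : MonotoneOn (fun t => Real.arctan ((γ t).1 / (γ t).2) - δ * t) (Ici 0) := by
      refine monotoneOn_of_deriv_nonneg (convex_Ici 0) ?_ ?_ ?_
      · intro s hs
        exact (((hang s hs).sub ((hasDerivAt_id s).const_mul δ)).continuousAt).continuousWithinAt
      · intro s hs
        rw [interior_Ici] at hs
        exact (((hang s hs.le).sub
          ((hasDerivAt_id s).const_mul δ)).differentiableAt).differentiableWithinAt
      · intro s hs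
        rw [interior_Ici] at hs
        have h2 := ((hang s hs.le).sub ((hasDerivAt_id s).const_mul δ)).deriv
        have h3 := hge s hs.le
        simp only [id] at h2
        have h4 : deriv (fun t => Real.arctan ((γ t).1 / (γ t).2) - δ * t) s = _ := h2
        rw [h4]
        linarith
    have h2 := h1 (mem_Ici.2 le_rfl) (mem_Ici.2 ht) ht
    simp only [h0] at h2
    simp at h2
    linarith
  have h1 := hgrow (Real.pi / δ) (by positivity)
  have h2 := Real.arctan_lt_pi_div_two ((γ (Real.pi / δ)).1 / (γ (Real.pi / δ)).2)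
  have h3 : δ * (Real.pi / δ) = Real.pi := by field_simp
  rw [h3] at h1
  linarith [Real.pi_pos]

/-- the first zero -/
lemma first {X : ℝ} (hX : 0 < X) (a c : ℝ) {γ : ℝ → ℝ × ℝ} (h0 : γ 0 = (0, et X))
    (hd : ∀ t, HasDerivAt γ (fld a c 0 (γ t)) t) (hk : ∀ t, kap (γ t) = kp X) :
    ∃ S, 0 < S ∧ (γ S).2 = 0 ∧ ∀ t ∈ Ico 0 S, 0 < (γ t).2 := by
  have hc : Continuous γ := continuous_iff_continuousAt.2 fun t => (hd t).continuousAt
  have hyc : Continuous fun t => (γ t).2 := continuous_snd.comp hc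
  have hne : {t : ℝ | 0 ≤ t ∧ (γ t).2 = 0}.Nonempty := hit hX a c h0 hd hk
  have hcl : IsClosed {t : ℝ | 0 ≤ t ∧ (γ t).2 = 0} :=
    (isClosed_le continuous_const continuous_id).inter (isClosed_eq hyc continuous_const)
  have hbd : BddBelow {t : ℝ | 0 ≤ t ∧ (γ t).2 = 0} := ⟨0, fun t ht => ht.1⟩
  have hmem := hcl.csInf_mem hne hbd
  set S := sInf {t : ℝ | 0 ≤ t ∧ (γ t).2 = 0} with hS
  have hS0 : S ≠ 0 := by
    intro h
    have h2 := hmem.2
    rw [h, h0] at h2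
    exact (et_pos hX).ne' h2
  refine ⟨S, lt_of_le_of_ne hmem.1 hS0.symm, hmem.2, ?_⟩
  intro t ht
  by_contra hneg
  push Not at hneg
  have h1 : (0 : ℝ) ∈ Icc ((γ t).2) ((γ 0).2) := ⟨hneg, by rw [h0]; exact (et_pos hX).le⟩
  obtain ⟨s, hs, hs'⟩ := intermediate_value_Icc' ht.1 hyc.continuousOn h1
  have h3 : S ≤ s := csInf_le hbd ⟨hs.1, hs'⟩
  linarith [hs.2, ht.2]

/-- PART HCB: the half turn of the unperturbed system -/
theorem quarter (hF : ∀ a c R : ℝ, ∃ Z W, Flw a c R Z W) (a c : ℝ) {X : ℝ} (hX : 0 < X) :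
    ∃ T > 0, ∃ γ : ℝ → ℝ × ℝ,
    γ 0 = (0, et X) ∧ γ T = (0, -et X) ∧
    (∀ t ∈ Icc 0 T, HasDerivAt γ (fld a c 0 (γ t)) t) ∧
    (∀ t ∈ Icc 0 T, kap (γ t) = kp X) ∧ (∀ t ∈ Icc 0 T, ‖γ t‖ ≤ 1 + X) ∧
    (∀ t ∈ Ioo 0 T, 0 < (γ t).1) ∧ ∫ t in (0:ℝ)..T, G a c (γ t) = 2 * Mel a c X := by
  obtain ⟨γ, h0, hd, hk⟩ := glob hF a c hX
  obtain ⟨S, hS, hyS, hpos⟩ := first hX a c h0 hd hk
  have hc : Continuous γ := continuous_iff_continuousAt.2 fun t => (hd t).continuousAt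
  have hmono : StrictMonoOn (fun t => (γ t).1) (Icc 0 S) := by
    apply strictMonoOn_of_deriv_pos (convex_Icc 0 S)
    · exact (continuous_fst.comp hc).continuousOn
    · intro t ht
      rw [interior_Icc] at ht
      rw [(fst_der (hd t)).deriv]
      exact hpos t ⟨ht.1.le, ht.2⟩
  have hx0 : (γ 0).1 = 0 := by rw [h0]
  have hxpos : ∀ t ∈ Ioc 0 S, 0 < (γ t).1 := by
    intro t ht
    have h1 := hmono (left_mem_Icc.2 hS.le) ⟨ht.1.le, ht.2⟩ ht.1
    simp only [hx0] at h1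
    exact h1
  have hxS : (γ S).1 = X := by
    have h1 := lev_zero (hk S) hyS
    have h2 := hxpos S ⟨hS, le_rfl⟩
    nlinarith
  set ρ : ℝ → ℝ × ℝ := fun t => ((γ (2 * S - t)).1, -(γ (2 * S - t)).2) with hρdef
  have hρ : ∀ t, HasDerivAt ρ (fld a c 0 (ρ t)) t := by
    intro t
    have h1 : HasDerivAt (fun t : ℝ => 2 * S - t) (-1) t := by
      simpa using (hasDerivAt_id t).const_sub (2 * S)
    have hx := (fst_der (hd (2 * S - t))).comp t h1
    have hy := (snd_der (hd (2 * S - t))).comp t h1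
    refine (hx.prodMk hy.neg).congr_deriv ?_
    simp only [fld, hρdef]
    ext
    · simp
    · simp
  set σ : ℝ → ℝ × ℝ := fun t => if t ≤ S then γ t else ρ t with hσdef
  have hσ1 : ∀ t, t ≤ S → σ t = γ t := fun t ht => by simp [hσdef, ht]
  have hρS : ρ S = γ S := by
    have : 2 * S - S = S := by ring
    simp only [hρdef, this, hyS, neg_zero]
    exact Prod.ext rfl hyS.symm
  have hσ2 : ∀ t, S ≤ t → σ t = ρ t := by
    intro t ht
    rcases eq_or_lt_of_le ht with h | h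
    · rw [← h, hρS, hσ1 S le_rfl]
    · simp [hσdef, not_le.2 h]
  have hσd : ∀ t, HasDerivAt σ (fld a c 0 (σ t)) t := by
    intro t
    rcases lt_trichotomy t S with h | h | h
    · rw [hσ1 t h.le]
      refine (hd t).congr_of_eventuallyEq ?_
      filter_upwards [Iio_mem_nhds h] with s hs
      exact hσ1 s (le_of_lt hs)
    · subst h
      have h1 : HasDerivWithinAt σ (fld a c 0 (σ t)) (Iic t) t := by
        rw [hσ1 t le_rfl]
        exact (hd t).hasDerivWithinAt.congr (fun s hs => hσ1 s hs) (hσ1 t le_rfl)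
      have h2 : HasDerivWithinAt σ (fld a c 0 (σ t)) (Ici t) t := by
        rw [hσ2 t le_rfl]
        exact (hρ t).hasDerivWithinAt.congr (fun s hs => hσ2 s hs) (hσ2 t le_rfl)
      have h3 := h1.union h2
      rw [Iic_union_Ici] at h3
      exact h3.hasDerivAt (by simp)
    · rw [hσ2 t h.le]
      refine (hρ t).congr_of_eventuallyEq ?_
      filter_upwards [Ioi_mem_nhds h] with s hs
      exact hσ2 s (le_of_lt hs)
  have hkρ : ∀ t, kap (ρ t) = kp X := by
    intro t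
    rw [← hk (2 * S - t)]
    simp [kap, hρdef]
  have hkσ : ∀ t, kap (σ t) = kp X := by
    intro t
    rcases le_total t S with h | h
    · rw [hσ1 t h]; exact hk t
    · rw [hσ2 t h]; exact hkρ t
  have hσc : Continuous σ := continuous_iff_continuousAt.2 fun t => (hσd t).continuousAt
  have hGc : Continuous (G a c) := by
    unfold G
    fun_prop
  refine ⟨2 * S, by linarith, σ, ?_, ?_, fun t _ => hσd t, fun t _ => hkσ t,
    fun t _ => lev_norm hX (hkσ t), ?_, ?_⟩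
  · rw [hσ1 0 hS.le, h0]
  · rw [hσ2 (2 * S) (by linarith)]
    simp [hρdef, h0]
  · intro t ht
    rcases le_total t S with h | h
    · rw [hσ1 t h]; exact hxpos t ⟨ht.1, h⟩
    · rw [hσ2 t h]
      exact hxpos (2 * S - t) ⟨by linarith [ht.2], by linarith⟩
  · have hint : ∀ u v : ℝ, IntervalIntegrable (fun t => G a c (σ t)) volume u v :=
      fun u v => (hGc.comp hσc).intervalIntegrable u v
    rw [← intervalIntegral.integral_add_adjacent_intervals (hint 0 S) (hint S (2 * S))]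
    have h1 : ∫ t in (0:ℝ)..S, G a c (σ t) = ∫ t in (0:ℝ)..S, G a c (γ t) := by
      refine intervalIntegral.integral_congr fun t ht => ?_
      rw [uIcc_of_le hS.le] at ht
      simp only [hσ1 t ht.2]
    have h2 : ∫ t in S..(2 * S), G a c (σ t) = ∫ t in (0:ℝ)..S, G a c (γ t) := by
      have h3 : ∫ t in S..(2 * S), G a c (σ t) = ∫ t in S..(2 * S), G a c (γ (2 * S - t)) := by
        refine intervalIntegral.integral_congr fun t ht => ?_
        rw [uIcc_of_le (by linarith)] at ht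
        simp only [hσ2 t ht.1]
        simp [G, hρdef]
      rw [h3, intervalIntegral.integral_comp_sub_left (fun t => G a c (γ t)) (2 * S)]
      congr 1 <;> ring
    have h4 : ∫ t in (0:ℝ)..S, G a c (γ t) = Mel a c X := by
      have hYc : Continuous (Y (kp X)) := by
        unfold Y
        fun_prop
      have hg : Continuous (fun x : ℝ => Real.exp (-x ^ 2) * Y (kp X) x *
          (a + c * x ^ 2 + Y (kp X) x ^ 2)) := by fun_prop
      have h5 := intervalIntegral.integral_comp_mul_deriv (a := 0) (b := S)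
        (f := fun t => (γ t).1) (f' := fun t => (γ t).2)
        (g := fun x : ℝ => Real.exp (-x ^ 2) * Y (kp X) x * (a + c * x ^ 2 + Y (kp X) x ^ 2))
        (fun t _ => fst_der (hd t)) ((continuous_snd.comp hc).continuousOn) hg
      rw [hx0, hxS] at h5
      rw [Mel, ← h5]
      refine intervalIntegral.integral_congr fun t ht => ?_
      rw [uIcc_of_le hS.le] at ht
      have hy : 0 ≤ (γ t).2 := by
        rcases eq_or_lt_of_le ht.2 with h | h
        · rw [h, hyS]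
        · exact (hpos t ⟨ht.1, h⟩).le
      have hY : Y (kp X) (γ t).1 = (γ t).2 := by
        unfold Y
        rw [← lev (hk t)]
        exact Real.sqrt_sq hy
      simp only [Function.comp, hY, G]
      ring
    rw [h1, h2, h4]
    ring

end Pool.Agent.W530.HC
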